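import Pool.Agent.Helper91.MC9.Spec

/-!
# MP_9d78a0_co, part KT: many edges give a complete minor
-/

set_option autoImplicit false

namespace Pool.Agent.Helper59.MC9.KT

open SimpleGraph Pool.Agent.Helper91.MC9

theorem nbr_edges {V : Type} [Finite V] (G : SimpleGraph V) (x : V) (s : ℕ)
    (h : ∀ z, G.Adj x z → 2 * s ≤ {w | G.Adj x w ∧ G.Adj z w}.ncard) :
    s * Nat.card (G.neighborSet x) ≤ (G.induce (G.neighborSet x)).edgeSet.ncard := by
  classical
  have : Fintype V := Fintype.ofFinite V
  set H := G.induce (G.neighborSet x) with hH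
  have h1 := H.sum_degrees_eq_twice_card_edges
  have h2 : ∀ v : G.neighborSet x, 2 * s ≤ H.degree v := by
    intro v
    refine (h v.1 v.2).trans ?_
    rw [← SimpleGraph.card_neighborFinset_eq_degree]
    have h3 : {w | G.Adj x w ∧ G.Adj v.1 w} = (fun u : G.neighborSet x => u.1) '' (H.neighborFinset v : Set _) := by
      ext w
      simp only [Set.mem_image, Finset.mem_coe, SimpleGraph.mem_neighborFinset]
      constructor
      · rintro ⟨ha, hb⟩
        exact ⟨⟨w, ha⟩, hb, rfl⟩
      · rintro ⟨u, hu, rfl⟩
        exact ⟨u.2, hu⟩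
    rw [h3, Set.ncard_image_of_injective _ Subtype.val_injective, Set.ncard_coe_finset]
  have h3 : 2 * s * Fintype.card (G.neighborSet x) ≤ ∑ v, H.degree v := by
    have := Finset.card_nsmul_le_sum Finset.univ (fun v => H.degree v) (2 * s) (fun v _ => h2 v)
    rw [smul_eq_mul, Finset.card_univ] at this
    linarith [this, mul_comm (Fintype.card (G.neighborSet x)) (2 * s)]
  have h4 : H.edgeSet.ncard = H.edgeFinset.card := by
    rw [← SimpleGraph.coe_edgeFinset, Set.ncard_coe_finset]
  rw [h4, Nat.card_eq_fintype_card]
  rw [h1] at h3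
  nlinarith

theorem main (hCON : S_CON) (hCONE : S_CONE) (hTRANS : S_TRANS) : S_KT := by
  intro t
  induction t with
  | zero =>
    intro V _ _ G _
    exact ⟨fun i => i.elim0, fun i => i.elim0, fun i => i.elim0, fun i => i.elim0⟩
  | succ t ih =>
    have key : ∀ N : ℕ, ∀ (V : Type) [Finite V] [Nonempty V] (G : SimpleGraph V), Nat.card V = N →
        2 ^ (t + 1) * N ≤ G.edgeSet.ncard → IsMinor (⊤ : SimpleGraph (Fin (t + 1))) G := by
      intro N
      induction N with
      | zero =>
        intro V _ _ G hN _
        exact absurd hN (Nat.card_pos (α := V)).ne'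
      | succ N ihN =>
        intro V _ _ G hN hE
        classical
        have : Fintype V := Fintype.ofFinite V
        by_cases hx : ∃ x y, G.Adj x y ∧ {z | G.Adj x z ∧ G.Adj y z}.ncard < 2 ^ (t + 1)
        · obtain ⟨x, y, hxy, hc⟩ := hx
          obtain ⟨Q', hm, hle⟩ := hCON V G x y hxy
          have hne : Nonempty {z : V // z ≠ y} := ⟨⟨x, hxy.ne⟩⟩
          have hcard : Nat.card {z : V // z ≠ y} = N := by
            rw [Nat.card_eq_fintype_card] at hN ⊢
            rw [Fintype.card_subtype_compl, Fintype.card_subtype_eq, hN]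
            rfl
          refine hTRANS _ _ _ _ _ _ (ihN {z : V // z ≠ y} Q' hcard ?_) hm
          have h1 : 2 ^ (t + 1) * (N + 1) = 2 ^ (t + 1) * N + 2 ^ (t + 1) := by ring
          omega
        · push Not at hx
          have hE0 : 0 < G.edgeSet.ncard := lt_of_lt_of_le (by positivity) hE
          obtain ⟨e, he⟩ := (Set.ncard_pos (Set.toFinite _)).mp hE0
          induction e using Sym2.ind with
          | _ a b =>
            rw [SimpleGraph.mem_edgeSet] at he
            apply hCONE t V G a
            have hne : Nonempty (G.neighborSet a) := ⟨⟨b, he⟩⟩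
            refine ih (G.neighborSet a) _ (nbr_edges G a (2 ^ t) fun z hz => ?_)
            have := hx a z hz
            rw [pow_succ] at this
            linarith
    intro V _ _ G h
    exact key _ V G rfl h

end Pool.Agent.Helper59.MC9.KT
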